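import Pool.Agent.H43.PS.Targets

/-! Row NNG of the board `psd_modules`. -/

namespace H43.PS

open Matrix Finset

theorem NNG (hSPC : T_SPC) : T_NNG := by
  intro κ _ _ A
  constructor
  · intro f hf
    by_cases h : A.IsHermitian
    · obtain ⟨U, a, _, _, _, _, h5⟩ := hSPC κ A h
      rw [(h5 f).2]
      exact Finset.sum_nonneg (fun i _ => hf (a i))
    · have : tf f A = 0 := by
        unfold tf fm
        rw [dif_neg h, Matrix.trace_zero]
      rw [this]
  · intro p hA
    obtain ⟨U, a, _, _, _, h4, h5⟩ := hSPC κ A hA.isHermitian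
    unfold tp
    rw [(h5 _).2]
    exact Finset.sum_nonneg (fun i _ => Real.rpow_nonneg (h4 hA i) p)

end H43.PS
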