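import Pool.Agent.H43.PS.Targets

/-! Row SCL of the board `psd_modules`. -/

namespace H43.PS

open Matrix Finset

theorem SCL (hUNI : T_UNI) (hSPC : T_SPC) : T_SCL := by
  intro κ _ _ p hp
  constructor
  · intro c X hc hX
    obtain ⟨U, a, h1, _, h3, h4, h5⟩ := hSPC κ X hX.isHermitian
    have h6 : c • X = U * diagonal (fun i => c * a i) * Uᵀ := by
      have hd : diagonal (fun i => c * a i) = c • diagonal a := by
        rw [← Matrix.diagonal_smul]
        rfl
      rw [hd, Matrix.mul_smul, Matrix.smul_mul, ← h3]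
    unfold tp
    rw [(hUNI κ U (fun i => c * a i) (c • X) h1 h6 _).2, (h5 _).2, Finset.mul_sum]
    refine Finset.sum_congr rfl (fun i _ => ?_)
    exact Real.mul_rpow hc (h4 hX i)
  · intro E hE
    obtain ⟨U, a, h1, _, h3, _, h5⟩ := hSPC κ E hE
    have h6 : E * E = U * diagonal (fun i => a i * a i) * Uᵀ := by
      have h7 : E * E = U * (diagonal a * (Uᵀ * U) * diagonal a) * Uᵀ := by
        rw [h3]
        simp only [Matrix.mul_assoc]
      rw [h7, h1, Matrix.mul_one, Matrix.diagonal_mul_diagonal]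
    unfold tp ta
    rw [(hUNI κ U (fun i => a i * a i) (E * E) h1 h6 _).2, (h5 _).2]
    refine Finset.sum_congr rfl (fun i _ => ?_)
    show (a i * a i) ^ p = |a i| ^ (2 * p)
    rw [Real.rpow_mul (abs_nonneg _), Real.rpow_two, sq_abs, sq]

end H43.PS
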